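import Pool.Agent.Lib.MP_02acd8_h53.StFinal

open AlgebraicGeometry Pool.Agent.Lib.MP_02acd8_h53

theorem Pool.Agent.Results.MP_02acd8_ag.Counterexample.result :
    ∃ _ : IsIntegral (toricVar mirror),
      IsFano 2 (toricStr mirror) ∧ hOneOne (loc (toricStr mirror)) = 2 ∧
      PeriodCondition (toricStr mirror) mirror ∧
      ∃ (Y : Scheme.{0}) (_ : IsIntegral Y) (w : Y ⟶ Line),
        IsCYCompactification mirror w ∧ ∀ c, IsIrreducible (fibre w c) :=
  main_full
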